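import Pool.Agent.H840.KP.Stm
import Pool.Agent.H722.GRP.B
set_option autoImplicit false

/-!
# S_GRP2: the action on `Ten`, rational group elements and density
-/

open Complex Filter Topology Matrix

open scoped ComplexConjugate

namespace Pool.Agent.H722.GRP2

open Pool.Agent.H840.AS Pool.Agent.H840.KP Pool.Agent.H722.GRP

abbrev T4 := Fin 2 → Fin 2 → Fin 2 → Fin 2 → ℂ

def P1 (g : M2) (Z : T4) : T4 := fun i j k l => ∑ a, g i a * Z a j k l
def P2 (g : M2) (Z : T4) : T4 := fun i j k l => ∑ a, conj (g j a) * Z i a k l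
def P3 (g : M2) (Z : T4) : T4 := fun i j k l => ∑ a, g k a * Z i j a l
def P4 (g : M2) (Z : T4) : T4 := fun i j k l => ∑ a, conj (g l a) * Z i j k a

theorem act_fst (g : M2) (Z : Ten) : (act g Z).1 = P1 g (P2 g (P3 g (P4 g Z.1))) := by
  funext i j k l
  simp only [act, P1, P2, P3, P4, Finset.mul_sum, mul_assoc]

theorem act_snd (g : M2) (Z : Ten) : (act g Z).2 = ‖g.det‖ ^ 2 * Z.2 := rfl

theorem P1_mul (g h : M2) (Z : T4) : P1 (g * h) Z = P1 g (P1 h Z) := by
  funext i j k l
  simp only [P1, Matrix.mul_apply, Fin.sum_univ_two]; ring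
theorem P2_mul (g h : M2) (Z : T4) : P2 (g * h) Z = P2 g (P2 h Z) := by
  funext i j k l
  simp only [P2, Matrix.mul_apply, Fin.sum_univ_two, map_add, map_mul]; ring
theorem P3_mul (g h : M2) (Z : T4) : P3 (g * h) Z = P3 g (P3 h Z) := by
  funext i j k l
  simp only [P3, Matrix.mul_apply, Fin.sum_univ_two]; ring
theorem P4_mul (g h : M2) (Z : T4) : P4 (g * h) Z = P4 g (P4 h Z) := by
  funext i j k l
  simp only [P4, Matrix.mul_apply, Fin.sum_univ_two, map_add, map_mul]; ring

theorem P12 (g h : M2) (Z : T4) : P2 g (P1 h Z) = P1 h (P2 g Z) := by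
  funext i j k l
  simp only [P1, P2, Fin.sum_univ_two]; ring
theorem P13 (g h : M2) (Z : T4) : P3 g (P1 h Z) = P1 h (P3 g Z) := by
  funext i j k l
  simp only [P1, P3, Fin.sum_univ_two]; ring
theorem P14 (g h : M2) (Z : T4) : P4 g (P1 h Z) = P1 h (P4 g Z) := by
  funext i j k l
  simp only [P1, P4, Fin.sum_univ_two]; ring
theorem P23 (g h : M2) (Z : T4) : P3 g (P2 h Z) = P2 h (P3 g Z) := by
  funext i j k l
  simp only [P2, P3, Fin.sum_univ_two]; ring
theorem P24 (g h : M2) (Z : T4) : P4 g (P2 h Z) = P2 h (P4 g Z) := by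
  funext i j k l
  simp only [P2, P4, Fin.sum_univ_two]; ring
theorem P34 (g h : M2) (Z : T4) : P4 g (P3 h Z) = P3 h (P4 g Z) := by
  funext i j k l
  simp only [P3, P4, Fin.sum_univ_two]; ring

theorem act_mul (g h : M2) (Z : Ten) : act (g * h) Z = act g (act h Z) := by
  refine Prod.ext ?_ ?_
  · rw [act_fst, act_fst, act_fst, P1_mul, P2_mul, P3_mul, P4_mul]
    rw [P14, P24, P34, P13, P23, P12]
  · rw [act_snd, act_snd, act_snd, Matrix.det_mul, norm_mul]; ring

theorem act_one (Z : Ten) : act 1 Z = Z := by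
  refine Prod.ext ?_ ?_
  · rw [act_fst]
    funext i j k l
    simp [P1, P2, P3, P4, Matrix.one_apply]
  · rw [act_snd, Matrix.det_one]; simp

theorem act_smul (r : ℝ) (g : M2) (Z : Ten) : act (r • g) Z = (r ^ 4) • act g Z := by
  refine Prod.ext ?_ ?_
  · rw [Prod.smul_fst, act_fst, act_fst]
    funext i j k l
    simp only [P1, P2, P3, P4, Fin.sum_univ_two, Matrix.smul_apply, Pi.smul_apply, Complex.real_smul,
      map_mul, Complex.conj_ofReal, Complex.ofReal_pow]
    ring
  · rw [Prod.smul_snd, act_snd, act_snd]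
    have hd : (r • g).det = ((r ^ 2 : ℝ) : ℂ) * g.det := by
      simp only [Matrix.det_fin_two, Matrix.smul_apply, Complex.real_smul, Complex.ofReal_pow]
      ring
    rw [hd, norm_mul, Complex.norm_real, Real.norm_eq_abs, abs_of_nonneg (sq_nonneg r), smul_eq_mul]
    ring

theorem act_add (g : M2) (Z W : Ten) : act g (Z + W) = act g Z + act g W := by
  refine Prod.ext ?_ ?_
  · rw [Prod.fst_add, act_fst, act_fst, act_fst]
    funext i j k l
    simp only [P1, P2, P3, P4, Fin.sum_univ_two, Prod.fst_add, Pi.add_apply]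
    ring
  · rw [Prod.snd_add, act_snd, act_snd, act_snd, Prod.snd_add]; ring

theorem act_rsmul (g : M2) (r : ℝ) (Z : Ten) : act g (r • Z) = r • act g Z := by
  refine Prod.ext ?_ ?_
  · rw [Prod.smul_fst, act_fst, act_fst]
    funext i j k l
    simp only [P1, P2, P3, P4, Fin.sum_univ_two, Prod.smul_fst, Pi.smul_apply, Complex.real_smul]
    ring
  · rw [Prod.smul_snd, act_snd, act_snd, Prod.smul_snd]; simp only [smul_eq_mul]; ring

/-- the action as a linear map -/
noncomputable def actL (g : M2) : Ten →ₗ[ℝ] Ten where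
  toFun := act g
  map_add' := act_add g
  map_smul' r Z := act_rsmul g r Z

theorem act_cont : Continuous (fun p : M2 × Ten => act p.1 p.2) := by
  have hg : ∀ i j : Fin 2, Continuous (fun p : M2 × Ten => p.1 i j) := fun i j =>
    (continuous_apply j).comp ((continuous_apply i).comp continuous_fst)
  have hZ : ∀ i j k l : Fin 2, Continuous (fun p : M2 × Ten => p.2.1 i j k l) := fun i j k l =>
    (continuous_apply l).comp ((continuous_apply k).comp ((continuous_apply j).comp
      ((continuous_apply i).comp (continuous_fst.comp continuous_snd))))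
  refine Continuous.prodMk ?_ ?_
  · refine continuous_pi fun i => continuous_pi fun j => continuous_pi fun k => continuous_pi fun l => ?_
    refine continuous_finsetSum _ fun a _ => continuous_finsetSum _ fun b _ =>
      continuous_finsetSum _ fun c _ => continuous_finsetSum _ fun d _ => ?_
    exact ((((hg i a).mul (Complex.continuous_conj.comp (hg j b))).mul (hg k c)).mul
      (Complex.continuous_conj.comp (hg l d))).mul (hZ a b c d)
  · have hd : Continuous (fun p : M2 × Ten => p.1.det) := by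
      simp only [Matrix.det_fin_two]
      exact ((hg 0 0).mul (hg 1 1)).sub ((hg 0 1).mul (hg 1 0))
    exact (hd.norm.pow 2).mul (continuous_snd.comp continuous_snd)

theorem closedTen (W : Submodule ℝ Ten) : IsClosed (W : Set Ten) :=
  Submodule.closed_of_finiteDimensional _

/-- functoriality -/
def Funct2 (S : AddSubgroup (Fin 2 → ℂ) → Submodule ℝ Ten) : Prop :=
  ∀ (Λ' Λ : AddSubgroup (Fin 2 → ℂ)) (g : M2),
      (∀ v ∈ Λ', g.mulVec v ∈ Λ) → ∀ Z ∈ S Λ', act g Z ∈ S Λ

theorem lemA {S : AddSubgroup (Fin 2 → ℂ) → Submodule ℝ Ten} (hS : Funct2 S) (τ : M2)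
    (x : Fin 7 → ℝ) (N : ℕ) (hN : 0 < N) (z : Fin 7 → ℤ) (hx : ∀ i, x i = z i / N)
    (Z : Ten) (hZ : Z ∈ S (Lat (Hx τ x))) : act (Adx x) Z ∈ S (Lat τ) := by
  have hN' : (N : ℂ) ≠ 0 := by exact_mod_cast hN.ne'
  have hxc : ∀ i, ((x i : ℝ) : ℂ) = z i / N := by
    intro i; rw [hx i]; push_cast; rfl
  have h1 : ∀ v ∈ Lat (Hx τ x), (((N : ℝ) ^ 3) • Adx x).mulVec v ∈ Lat τ := by
    rintro v ⟨a, b, hv⟩
    refine ⟨![N ^ 2 * (z 3 * a 0 - z 1 * a 1) +
        N * ((z 3 * z 4 - z 1 * z 5) * b 0 + (z 3 * z 5 - z 1 * z 6) * b 1),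
      N ^ 2 * (- z 2 * a 0 + z 0 * a 1) +
        N * ((- z 2 * z 4 + z 0 * z 5) * b 0 + (- z 2 * z 5 + z 0 * z 6) * b 1)],
      ![(z 0 * z 3 - z 1 * z 2) * (z 0 * b 0 + z 2 * b 1),
        (z 0 * z 3 - z 1 * z 2) * (z 1 * b 0 + z 3 * b 1)], fun i => ?_⟩
    have hv0 := hv 0
    have hv1 := hv 1
    fin_cases i
    · simp only [Fin.zero_eta, Matrix.mulVec, dotProduct, Fin.sum_univ_two, hv0, hv1]
      simp only [Hx, Adx, Ux, Bx, toC, Matrix.add_apply, Matrix.mul_apply, Fin.sum_univ_two,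
        Matrix.smul_apply, Matrix.map_apply, Matrix.transpose_apply, Matrix.of_apply,
        Matrix.cons_val_zero, Matrix.cons_val_one, Matrix.cons_val', Matrix.cons_val_fin_one,
        Complex.real_smul, Complex.ofReal_neg, hxc]
      push_cast
      field_simp
      ring
    · simp only [Fin.mk_one, Matrix.mulVec, dotProduct, Fin.sum_univ_two, hv0, hv1]
      simp only [Hx, Adx, Ux, Bx, toC, Matrix.add_apply, Matrix.mul_apply, Fin.sum_univ_two,
        Matrix.smul_apply, Matrix.map_apply, Matrix.transpose_apply, Matrix.of_apply,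
        Matrix.cons_val_zero, Matrix.cons_val_one, Matrix.cons_val', Matrix.cons_val_fin_one,
        Complex.real_smul, Complex.ofReal_neg, hxc]
      push_cast
      field_simp
      ring
  have h2 := hS _ _ _ h1 Z hZ
  rw [act_smul] at h2
  have h5 : (((N : ℝ) ^ 3) ^ 4) ≠ 0 := by positivity
  have h6 := (S (Lat τ)).smul_mem ((((N : ℝ) ^ 3) ^ 4)⁻¹) h2
  rw [smul_smul, inv_mul_cancel₀ h5, one_smul] at h6
  exact h6


end Pool.Agent.H722.GRP2
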