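import Pool.Agent.H722.GRP2.A
set_option autoImplicit false

open Complex Filter Topology Matrix

open scoped ComplexConjugate

namespace Pool.Agent.H722.GRP2

open Pool.Agent.H840.AS Pool.Agent.H840.KP Pool.Agent.H722.GRP

theorem lemB {S : AddSubgroup (Fin 2 → ℂ) → Submodule ℝ Ten} (hS : Funct2 S)
    (Y : M2R) (R : Ten)
    (hR : ∀ V ∈ 𝓝 R, ∀ᶠ τ in 𝓝 (Complex.I • toC Y), τ.IsSymm → ∃ Z ∈ S (Lat τ), Z ∈ V)
    (τ : M2) (hτ : τ.IsSymm) (x : Fin 7 → ℝ) (hx : Hx τ x = Complex.I • toC Y) :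
    act (Adx x) R ∈ S (Lat τ) := by
  have hcl : IsClosed (S (Lat τ) : Set Ten) := closedTen _
  rw [← SetLike.mem_coe, ← hcl.closure_eq, mem_closure_iff_nhds]
  intro O hO
  -- continuity of the conjugation
  have hcA : Continuous (Adx) := by
    unfold Adx toC
    refine continuous_matrix fun i j => ?_
    fin_cases i <;> fin_cases j <;> simp <;> fun_prop
  have hcU : Continuous (fun x => toC (Ux x)) := by
    unfold Ux toC
    refine continuous_matrix fun i j => ?_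
    fin_cases i <;> fin_cases j <;> simp <;> fun_prop
  have hcB : Continuous (fun x => toC (Bx x)) := by
    unfold Bx toC
    refine continuous_matrix fun i j => ?_
    fin_cases i <;> fin_cases j <;> simp <;> fun_prop
  have hcH : Continuous (Hx τ) := by
    unfold Hx
    exact ((hcU.matrix_mul continuous_const).matrix_mul hcU.matrix_transpose).add hcB
  have hcG : Continuous (fun p : (Fin 7 → ℝ) × Ten => act (Adx p.1) p.2) :=
    act_cont.comp (f := fun p : (Fin 7 → ℝ) × Ten => (Adx p.1, p.2))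
      ((hcA.comp continuous_fst).prodMk continuous_snd)
  have hG : ∀ᶠ p in 𝓝 (x, R), act (Adx p.1) p.2 ∈ O :=
    hcG.continuousAt.eventually_mem hO
  rw [nhds_prod_eq] at hG
  obtain ⟨pa, hpa, pb, hpb, hG⟩ := Filter.eventually_prod_iff.1 hG
  have h1 := hR {Z | pb Z} hpb
  rw [← hx] at h1
  have h2 : ∀ᶠ x' in 𝓝 x, (Hx τ x').IsSymm → ∃ Z ∈ S (Lat (Hx τ x')), pb Z :=
    hcH.continuousAt.eventually h1
  have h3 := h2.and hpa
  obtain ⟨y, hy1, q, hq⟩ : ∃ y, ((Hx τ y).IsSymm → ∃ Z ∈ S (Lat (Hx τ y)), pb Z) ∧ pa y ∧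
      ∃ q : Fin 7 → ℚ, (fun i => (q i : ℝ)) = y := by
    obtain ⟨y, hy, q, hq⟩ := (mem_closure_iff_nhds.1 (dense_rat x)) _ h3
    exact ⟨y, hy.1, hy.2, q, hq⟩
  obtain ⟨q, hq⟩ := hq
  have hsym : (Hx τ y).IsSymm := by
    unfold Matrix.IsSymm at hτ ⊢
    unfold Hx
    rw [Matrix.transpose_add, Matrix.transpose_mul, Matrix.transpose_mul, Matrix.transpose_transpose,
      hτ, Matrix.mul_assoc]
    congr 1
    ext i j
    fin_cases i <;> fin_cases j <;> simp [toC, Bx]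
  obtain ⟨Z, hZ, hZ2⟩ := hy1 hsym
  obtain ⟨N, z, hN, hz⟩ := common_den q
  refine ⟨act (Adx y) Z, ?_, ?_⟩
  · exact hG ‹_› hZ2
  · refine lemA hS τ y N hN z (fun i => ?_) Z hZ
    rw [← hq]
    show ((q i : ℚ) : ℝ) = z i / N
    rw [hz i]
    push_cast
    rfl

/-- step (b) -/
theorem lemD {S : AddSubgroup (Fin 2 → ℂ) → Submodule ℝ Ten} (hS : Funct2 S)
    (Y : M2R) (R : Ten)
    (hR : ∀ V ∈ 𝓝 R, ∀ᶠ τ in 𝓝 (Complex.I • toC Y), τ.IsSymm → ∃ Z ∈ S (Lat τ), Z ∈ V)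
    (τ : M2) (hτ : τ.IsSymm) (U : M2R) (hU : U * (τ.map Complex.im) * Uᵀ = Y) :
    act (toC U.adjugate) R ∈ S (Lat τ) := by
  set X : M2R := τ.map Complex.re with hX
  set Y' : M2R := τ.map Complex.im with hY'
  have hXs : Xᵀ = X := by
    rw [hX]
    have : τᵀ = τ := hτ
    conv_rhs => rw [← this]
    rfl
  set Bm : M2R := - (U * X * Uᵀ) with hB
  have hBs : Bm 1 0 = Bm 0 1 := by
    have : Bmᵀ = Bm := by
      rw [hB]
      simp only [Matrix.transpose_neg, Matrix.transpose_mul, Matrix.transpose_transpose, hXs,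
        Matrix.mul_assoc]
    exact congrFun (congrFun this 0) 1
  have h1 : Hx τ (xOf U Bm) = Complex.I • toC Y := by
    unfold Hx
    rw [Ux_xOf, Bx_xOf _ _ hBs, ← toC_transpose]
    conv_lhs => rw [decomp τ, ← hX, ← hY']
    rw [Matrix.mul_add, Matrix.add_mul, ← toC_mul, ← toC_mul, hB, toC_neg]
    rw [Matrix.mul_smul, Matrix.smul_mul, ← toC_mul, ← toC_mul, hU]
    abel
  have h2 := lemB hS Y R hR τ hτ _ h1
  rw [Adx_xOf] at h2
  exact h2

/-- step (b), for matrices `V` with `V Vᵀ = Im τ` -/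
theorem lemV {S : AddSubgroup (Fin 2 → ℂ) → Submodule ℝ Ten} (hS : Funct2 S)
    (T : M2R) (hT : T.det ≠ 0) (R : Ten)
    (hR : ∀ V ∈ 𝓝 (act (toC T) R), ∀ᶠ τ in 𝓝 (Complex.I • toC (T * Tᵀ)), τ.IsSymm →
      ∃ Z ∈ S (Lat τ), Z ∈ V)
    (τ : M2) (hτ : τ.IsSymm) (V : M2R) (hV : V * Vᵀ = τ.map Complex.im) (hVd : V.det ≠ 0) :
    act (toC V) R ∈ S (Lat τ) := by
  have hVa : V.adjugate * V = V.det • (1 : M2R) := Matrix.adjugate_mul V
  have hVaT : Vᵀ * V.adjugateᵀ = V.det • (1 : M2R) := by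
    rw [← Matrix.transpose_mul, hVa, Matrix.transpose_smul, Matrix.transpose_one]
  set U : M2R := (V.det)⁻¹ • (T * V.adjugate) with hU
  have h1 : U * (τ.map Complex.im) * Uᵀ = T * Tᵀ := by
    rw [← hV, hU, Matrix.transpose_smul, Matrix.transpose_mul]
    simp only [Matrix.smul_mul, Matrix.mul_smul, smul_smul]
    have h2 : T * V.adjugate * (V * Vᵀ) * (V.adjugateᵀ * Tᵀ) =
        T * (V.adjugate * V) * (Vᵀ * V.adjugateᵀ) * Tᵀ := by
      simp only [Matrix.mul_assoc]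
    rw [h2, hVa, hVaT]
    simp only [Matrix.mul_smul, Matrix.smul_mul, smul_smul, Matrix.mul_one]
    have h4 : (V.det)⁻¹ * (V.det)⁻¹ * (V.det * V.det) = 1 := by field_simp
    rw [h4, one_smul]
  have h2 := lemD hS (T * Tᵀ) _ hR τ hτ U h1
  rw [← act_mul, ← toC_mul] at h2
  have h3 : U.adjugate * T = ((V.det)⁻¹ * T.det) • V := by
    rw [hU, Matrix.adjugate_smul, Matrix.adjugate_mul_distrib, Matrix.adjugate_adjugate' V]
    simp only [Fintype.card_fin, Nat.add_one_sub_one, pow_one, Nat.sub_self, pow_zero, one_smul,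
      Matrix.smul_mul]
    rw [Matrix.mul_assoc, Matrix.adjugate_mul, Matrix.mul_smul, Matrix.mul_one, smul_smul]
  rw [h3, toC_smul, act_smul] at h2
  have h5 : (((V.det)⁻¹ * T.det) ^ 4) ≠ 0 := pow_ne_zero _ (mul_ne_zero (inv_ne_zero hVd) hT)
  have h6 := (S (Lat τ)).smul_mem ((((V.det)⁻¹ * T.det) ^ 4)⁻¹) h2
  rw [smul_smul, inv_mul_cancel₀ h5, one_smul] at h6
  exact h6

end Pool.Agent.H722.GRP2
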