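import Pool.Agent.H722.GRP2.A2
set_option autoImplicit false

/-!
# S_GRP2: step (d), the unitary elements
-/

open Complex Filter Topology Matrix

open scoped ComplexConjugate

namespace Pool.Agent.H722.GRP2

open Pool.Agent.H840.AS Pool.Agent.H840.KP Pool.Agent.H722.GRP

/-- `-σ⁻¹` -/
noncomputable def ti (σ : M2) : M2 := (-(σ.det)⁻¹) • σ.adjugate

theorem ti_eq (σ : M2) : ti σ = -σ⁻¹ := by
  rw [ti, Matrix.inv_def, Ring.inverse_eq_inv', neg_smul]

theorem mul_ti (σ : M2) (h : σ.det ≠ 0) : σ * ti σ = -1 := by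
  rw [ti_eq, Matrix.mul_neg, Matrix.mul_nonsing_inv σ h.isUnit]

theorem ti_cont (σ : M2) (h : σ.det ≠ 0) : ContinuousAt ti σ := by
  have hd : Continuous (fun σ : M2 => σ.det) := continuous_id.matrix_det
  have ha : Continuous (fun σ : M2 => σ.adjugate) := continuous_id.matrix_adjugate
  unfold ti
  exact ((hd.continuousAt.inv₀ h).neg).smul ha.continuousAt

theorem ti_symm (σ : M2) (h : σ.IsSymm) : (ti σ).IsSymm := by
  unfold Matrix.IsSymm ti
  rw [Matrix.transpose_smul, Matrix.adjugate_transpose, h]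

/-- the translation -/
def B3 (x : Fin 3 → ℝ) : M2R := !![x 0, x 1; x 1, x 2]

/-- the Cholesky factor -/
noncomputable def cF (P : M2R) : M2R :=
  !![Real.sqrt (P 0 0), 0; P 0 1 / Real.sqrt (P 0 0),
    Real.sqrt ((P 0 0 * P 1 1 - P 0 1 * P 0 1) / P 0 0)]

theorem cF_mul (P : M2R) (hs : P 1 0 = P 0 1) (ha : 0 < P 0 0)
    (hd : 0 < P 0 0 * P 1 1 - P 0 1 * P 0 1) : cF P * (cF P)ᵀ = P ∧ (cF P).det ≠ 0 := by
  have h1 : Real.sqrt (P 0 0) * Real.sqrt (P 0 0) = P 0 0 := Real.mul_self_sqrt ha.le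
  have h1' : 0 < Real.sqrt (P 0 0) := Real.sqrt_pos.2 ha
  have h2' : 0 < (P 0 0 * P 1 1 - P 0 1 * P 0 1) / P 0 0 := div_pos hd ha
  have h2 := Real.mul_self_sqrt h2'.le
  have h3' := Real.sqrt_pos.2 h2'
  refine ⟨?_, ?_⟩
  · unfold cF
    ext i j
    fin_cases i <;> fin_cases j
    · simp [Matrix.mul_apply, Fin.sum_univ_two, h1]
    · simp [Matrix.mul_apply, Fin.sum_univ_two]
      field_simp
    · simp [Matrix.mul_apply, Fin.sum_univ_two, hs]
      field_simp
    · simp only [Fin.mk_one, Matrix.mul_apply, Fin.sum_univ_two, Matrix.transpose_apply,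
        Matrix.of_apply, Matrix.cons_val_one, Matrix.cons_val_zero, Matrix.cons_val',
        Matrix.cons_val_fin_one]
      rw [h2]
      have h4 : P 0 1 / √(P 0 0) * (P 0 1 / √(P 0 0)) = P 0 1 * P 0 1 / P 0 0 := by
        rw [div_mul_div_comm, h1]
      rw [h4]
      field_simp
      ring
  · rw [Matrix.det_fin_two]
    simp only [cF, Matrix.of_apply, Matrix.cons_val_one, Matrix.cons_val_zero, Matrix.cons_val',
        Matrix.cons_val_fin_one, zero_mul, sub_zero]
    exact (mul_pos h1' h3').ne'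

theorem cF_one : cF 1 = 1 := by
  unfold cF
  ext i j
  fin_cases i <;> fin_cases j <;> simp

theorem cF_cont : ContinuousAt cF 1 := by
  have hg : ∀ i j : Fin 2, Continuous (fun P : M2R => P i j) := fun i j =>
    (continuous_apply j).comp (continuous_apply i)
  have h0 : ContinuousAt (fun P : M2R => Real.sqrt (P 0 0)) 1 :=
    (Real.continuous_sqrt.comp (hg 0 0)).continuousAt
  have h1 : Real.sqrt ((1 : M2R) 0 0) ≠ 0 := by simp
  have h2 : ContinuousAt (fun P : M2R => P 0 1 / Real.sqrt (P 0 0)) 1 :=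
    (hg 0 1).continuousAt.div h0 h1
  have h3 : ContinuousAt (fun P : M2R => (P 0 0 * P 1 1 - P 0 1 * P 0 1) / P 0 0) 1 := by
    refine ContinuousAt.div ?_ (hg 0 0).continuousAt (by simp)
    exact (((hg 0 0).mul (hg 1 1)).sub ((hg 0 1).mul (hg 0 1))).continuousAt
  have h4 : ContinuousAt (fun P : M2R =>
      Real.sqrt ((P 0 0 * P 1 1 - P 0 1 * P 0 1) / P 0 0)) 1 :=
    ContinuousAt.comp (f := fun P : M2R => (P 0 0 * P 1 1 - P 0 1 * P 0 1) / P 0 0)
      Real.continuous_sqrt.continuousAt h3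
  refine continuousAt_pi.2 fun i => continuousAt_pi.2 fun j => ?_
  fin_cases i <;> fin_cases j
  · exact h0
  · exact continuousAt_const
  · exact h2
  · exact h4

theorem posDef_mul_transpose (A : M2R) (h : A.det ≠ 0) : (A * Aᵀ).PosDef := by
  have h1 : Function.Injective A.vecMul := by
    rw [Matrix.vecMul_injective_iff_isUnit, Matrix.isUnit_iff_isUnit_det]
    exact h.isUnit
  have h2 := (Matrix.PosDef.one (n := Fin 2) (R := ℝ)).mul_mul_conjTranspose_same h1
  have h3 : Aᴴ = Aᵀ := by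
    ext i j; simp
  rwa [h3, Matrix.mul_one] at h2

theorem im_conj (A : M2R) (Z : M2) (B : M2R) :
    (toC A * Z * toC B).map Complex.im = A * (Z.map Complex.im) * B := by
  ext i j
  simp only [toC, Matrix.map_apply, Matrix.mul_apply, Fin.sum_univ_two, Complex.add_im,
    Complex.mul_im, Complex.add_re, Complex.mul_re, Complex.ofReal_re, Complex.ofReal_im]
  ring

theorem dense_rat3 : DenseRange (fun (q : Fin 3 → ℚ) (i : Fin 3) => (q i : ℝ)) :=
  DenseRange.piMap (f := fun _ => ((↑) : ℚ → ℝ)) fun _ => Rat.denseRange_cast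

theorem common_den3 (q : Fin 3 → ℚ) : ∃ (N : ℕ) (z : Fin 3 → ℤ), 0 < N ∧
    ∀ i, (q i : ℚ) = z i / N := by
  refine ⟨∏ i, (q i).den, fun i => (q i).num * ∏ j ∈ Finset.univ.erase i, ((q j).den : ℤ),
    Finset.prod_pos fun i _ => (q i).den_pos, fun i => ?_⟩
  have h1 : (∏ i, (q i).den) = (q i).den * ∏ j ∈ Finset.univ.erase i, (q j).den :=
    (Finset.mul_prod_erase Finset.univ _ (Finset.mem_univ i)).symm
  have h2 : (∏ j ∈ Finset.univ.erase i, ((q j).den : ℚ)) ≠ 0 :=
    Finset.prod_ne_zero_iff.2 fun j _ => by exact_mod_cast (q j).den_ne_zero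
  have h3 : ((q i).den : ℚ) ≠ 0 := by exact_mod_cast (q i).den_ne_zero
  rw [h1]
  push_cast
  rw [eq_div_iff (mul_ne_zero h3 h2)]
  have h4 : q i * (q i).den = (q i).num := Rat.mul_den_eq_num (q i)
  linear_combination (∏ j ∈ Finset.univ.erase i, ((q j).den : ℚ)) * h4

theorem one_row (i : Fin 2) (b : Fin 2 → ℂ) : (1 : M2) i 0 * b 0 + (1 : M2) i 1 * b 1 = b i := by
  have := congrFun (Matrix.one_mulVec b) i
  rw [Matrix.mulVec, dotProduct, Fin.sum_univ_two] at this
  exact this

/-- from `-σ⁻¹` to `σ` -/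
theorem lat_inv {S : AddSubgroup (Fin 2 → ℂ) → Submodule ℝ Ten} (hS : Funct2 S) (σ : M2)
    (h : σ.det ≠ 0) (Z : Ten) (hZ : Z ∈ S (Lat (ti σ))) : act σ Z ∈ S (Lat σ) := by
  refine hS _ _ σ ?_ Z hZ
  rintro v ⟨a, b, hv⟩
  refine ⟨-b, a, fun i => ?_⟩
  have h1 : ∀ i j, σ i 0 * ti σ 0 j + σ i 1 * ti σ 1 j = -(1 : M2) i j := by
    intro i j
    have := congrFun (congrFun (mul_ti σ h) i) j
    rw [Matrix.mul_apply, Fin.sum_univ_two] at this
    exact this
  have h0 := h1 i 0
  have h1' := h1 i 1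
  simp only [Matrix.mulVec, dotProduct, Fin.sum_univ_two, hv 0, hv 1, Pi.neg_apply, Int.cast_neg]
  have e0 : ((1 : M2) i 0) * (b 0 : ℂ) + ((1 : M2) i 1) * (b 1 : ℂ) = b i :=
    one_row i (fun i => (b i : ℂ))
  linear_combination (b 0 : ℂ) * h0 + (b 1 : ℂ) * h1' - e0

/-- translation -/
theorem lat_trans {S : AddSubgroup (Fin 2 → ℂ) → Submodule ℝ Ten} (hS : Funct2 S) (τ : M2)
    (q : Fin 3 → ℚ) (Z : Ten) (hZ : Z ∈ S (Lat (τ + toC (B3 fun i => (q i : ℝ))))) :
    Z ∈ S (Lat τ) := by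
  obtain ⟨N, z, hN, hz⟩ := common_den3 q
  have hN' : (N : ℂ) ≠ 0 := by exact_mod_cast hN.ne'
  have hxc : ∀ i, (((q i : ℝ)) : ℂ) = z i / N := by
    intro i
    rw [hz i]; push_cast; rfl
  have h1 : ∀ v ∈ Lat (τ + toC (B3 fun i => (q i : ℝ))), ((N : ℝ) • (1 : M2)).mulVec v ∈ Lat τ := by
    rintro v ⟨a, b, hv⟩
    refine ⟨![N * a 0 + (z 0 * b 0 + z 1 * b 1), N * a 1 + (z 1 * b 0 + z 2 * b 1)],
      ![N * b 0, N * b 1], fun i => ?_⟩
    have hv0 := hv 0
    have hv1 := hv 1
    fin_cases i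
    · simp only [Fin.zero_eta, Matrix.mulVec, dotProduct, Fin.sum_univ_two, hv0, hv1]
      simp only [B3, toC, Matrix.add_apply, Matrix.smul_apply, Matrix.map_apply, Matrix.of_apply,
        Matrix.cons_val_zero, Matrix.cons_val_one, Matrix.cons_val', Matrix.cons_val_fin_one,
        Complex.real_smul, hxc, Matrix.one_apply_eq, Matrix.one_apply, Fin.isValue,
        zero_ne_one, if_false]
      push_cast
      field_simp
      ring
    · simp only [Fin.mk_one, Matrix.mulVec, dotProduct, Fin.sum_univ_two, hv0, hv1]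
      simp only [B3, toC, Matrix.add_apply, Matrix.smul_apply, Matrix.map_apply, Matrix.of_apply,
        Matrix.cons_val_zero, Matrix.cons_val_one, Matrix.cons_val', Matrix.cons_val_fin_one,
        Complex.real_smul, hxc, Matrix.one_apply_eq, Matrix.one_apply, Fin.isValue,
        one_ne_zero, if_false]
      push_cast
      field_simp
      ring
  have h2 := hS _ _ _ h1 Z hZ
  rw [act_smul, act_one] at h2
  have h5 : ((N : ℝ) ^ 4) ≠ 0 := by positivity
  have h6 := (S (Lat τ)).smul_mem (((N : ℝ) ^ 4)⁻¹) h2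
  rw [smul_smul, inv_mul_cancel₀ h5, one_smul] at h6
  exact h6

/-- the property of step (c) -/
def InN (S : AddSubgroup (Fin 2 → ℂ) → Submodule ℝ Ten) (Z : Ten) : Prop :=
  ∀ τ : M2, τ.IsSymm → (τ.map Complex.im).PosDef → ∀ V : M2R, V * Vᵀ = τ.map Complex.im →
    act (toC V) Z ∈ S (Lat τ)

theorem kstep {S : AddSubgroup (Fin 2 → ℂ) → Submodule ℝ Ten} (hS : Funct2 S) (c s : ℝ)
    (hs : s ^ 2 = c ^ 2 + 1) (hs0 : 0 < s) (Z : Ten) (hZ : InN S Z) (τ : M2) (hτ : τ.IsSymm)
    (hτp : (τ.map Complex.im).PosDef) (V : M2R) (hV : V * Vᵀ = τ.map Complex.im) :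
    act (toC V * !![((c : ℂ) + Complex.I) / s, 0; 0, Complex.I]) Z ∈ S (Lat τ) := by
  have hVd : V.det ≠ 0 := by
    intro h0
    have h1 := hτp.det_pos
    rw [← hV, Matrix.det_mul, h0, zero_mul] at h1
    exact lt_irrefl _ h1
  have hsc : (s : ℂ) ≠ 0 := by exact_mod_cast hs0.ne'
  have hcI : (c : ℂ) + Complex.I ≠ 0 := by
    intro h
    have := congrArg Complex.im h
    simp at this
  have hVi : V⁻¹ * V = 1 := Matrix.nonsing_inv_mul V hVd.isUnit
  have hVi' : V * V⁻¹ = 1 := Matrix.mul_nonsing_inv V hVd.isUnit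
  have hViT : Vᵀ * (V⁻¹)ᵀ = 1 := by rw [← Matrix.transpose_mul, hVi, Matrix.transpose_one]
  have hViT' : (V⁻¹)ᵀ * Vᵀ = 1 := by rw [← Matrix.transpose_mul, hVi', Matrix.transpose_one]
  set C : M2R := !![c, 0; 0, 0] with hC
  set D : M2R := !![s, 0; 0, 1] with hD
  set Di : M2R := !![s⁻¹, 0; 0, 1] with hDi
  have hDD : D * Di = 1 := by
    ext i j
    fin_cases i <;> fin_cases j <;> simp [hD, hDi, Matrix.mul_apply, Fin.sum_univ_two, hs0.ne']
  have hDD' : Di * D = 1 := by
    ext i j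
    fin_cases i <;> fin_cases j <;> simp [hD, hDi, Matrix.mul_apply, Fin.sum_univ_two, hs0.ne']
  have hDT : Dᵀ = D := by ext i j; fin_cases i <;> fin_cases j <;> simp [hD]
  have hDiT : Diᵀ = Di := by ext i j; fin_cases i <;> fin_cases j <;> simp [hDi]
  set X : M2R := τ.map Complex.re with hX
  have hXs : Xᵀ = X := by
    rw [hX]
    have : τᵀ = τ := hτ
    conv_rhs => rw [← this]
    rfl
  set Bs : M2R := V * C * Vᵀ - X with hBs
  have hBsT : Bsᵀ = Bs := by
    have hCT : Cᵀ = C := by ext i j; fin_cases i <;> fin_cases j <;> simp [hC]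
    rw [hBs, Matrix.transpose_sub, Matrix.transpose_mul, Matrix.transpose_mul,
      Matrix.transpose_transpose, hXs, hCT, Matrix.mul_assoc]
  let x0 : Fin 3 → ℝ := ![Bs 0 0, Bs 0 1, Bs 1 1]
  have hx0 : B3 x0 = Bs := by
    have h10 : Bs 1 0 = Bs 0 1 := congrFun (congrFun hBsT 0) 1
    ext i j
    fin_cases i <;> fin_cases j <;> simp [B3, x0, h10]
  let σ : (Fin 3 → ℝ) → M2 := fun x => τ + toC (B3 x)
  set K : M2 := !![(c : ℂ) + Complex.I, 0; 0, Complex.I] with hK
  have hσ0 : σ x0 = toC V * K * toC Vᵀ := by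
    have h1 : K = toC C + Complex.I • (1 : M2) := by
      ext i j
      fin_cases i <;> fin_cases j <;> simp [hK, hC, toC]
    show τ + toC (B3 x0) = _
    rw [hx0, h1, Matrix.mul_add, Matrix.add_mul, ← toC_mul, ← toC_mul, Matrix.mul_smul,
      Matrix.smul_mul, Matrix.mul_one, ← toC_mul, hV]
    conv_lhs => rw [decomp τ, ← hX]
    rw [hBs]
    have h2 : toC (V * C * Vᵀ - X) = toC (V * C * Vᵀ) - toC X := by
      ext i j; simp [toC]
    rw [h2]
    abel
  have hKd : K.det ≠ 0 := by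
    rw [Matrix.det_fin_two]
    simp only [hK, Matrix.of_apply, Matrix.cons_val_one, Matrix.cons_val_zero, Matrix.cons_val',
        Matrix.cons_val_fin_one, zero_mul, sub_zero]
    exact mul_ne_zero hcI Complex.I_ne_zero
  have hVdc : (toC V).det ≠ 0 := by
    have h1 : (toC V).det = ((V.det : ℝ) : ℂ) := by
      simp only [toC, Matrix.det_fin_two, Matrix.map_apply]; push_cast; ring
    rw [h1]
    exact_mod_cast hVd
  have hσd : (σ x0).det ≠ 0 := by
    rw [hσ0, Matrix.det_mul, Matrix.det_mul, toC_transpose, Matrix.det_transpose]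
    exact mul_ne_zero (mul_ne_zero hVdc hKd) hVdc
  have hσc : Continuous σ := by
    have hcB : Continuous (fun x : Fin 3 → ℝ => toC (B3 x)) := by
      unfold B3 toC
      refine continuous_matrix fun i j => ?_
      fin_cases i <;> fin_cases j <;> simp <;> fun_prop
    exact continuous_const.add hcB
  have hσs : ∀ x, (σ x).IsSymm := by
    intro x
    unfold Matrix.IsSymm at hτ ⊢
    show (τ + toC (B3 x))ᵀ = _
    rw [Matrix.transpose_add, hτ]
    congr 1
    ext i j
    fin_cases i <;> fin_cases j <;> simp [toC, B3]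
  -- the positive matrices
  let P : (Fin 3 → ℝ) → M2R := fun x => (toC (D * Vᵀ) * ti (σ x) * toC (V * D)).map Complex.im
  have hPx0 : P x0 = 1 := by
    have h1 : toC (D * Vᵀ) * ti (σ x0) * toC (V * D) =
        !![-(c : ℂ) + Complex.I, 0; 0, Complex.I] := by
      have e1 : ti (σ x0) = toC (V⁻¹)ᵀ * (-K⁻¹) * toC V⁻¹ := by
        rw [ti_eq, hσ0]
        have e2 : (toC V * K * toC Vᵀ)⁻¹ = toC (V⁻¹)ᵀ * K⁻¹ * toC V⁻¹ := by
          apply Matrix.inv_eq_left_inv
          calc toC (V⁻¹)ᵀ * K⁻¹ * toC V⁻¹ * (toC V * K * toC Vᵀ)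
              = toC (V⁻¹)ᵀ * K⁻¹ * (toC V⁻¹ * toC V) * K * toC Vᵀ := by
                simp only [Matrix.mul_assoc]
            _ = toC (V⁻¹)ᵀ * (K⁻¹ * K) * toC Vᵀ := by
                rw [← toC_mul, hVi, show toC (1 : M2R) = 1 by
                  ext i j; fin_cases i <;> fin_cases j <;> simp [toC], Matrix.mul_one]
                simp only [Matrix.mul_assoc]
            _ = 1 := by
                rw [Matrix.nonsing_inv_mul K hKd.isUnit, Matrix.mul_one, ← toC_mul, hViT']
                ext i j; fin_cases i <;> fin_cases j <;> simp [toC]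
        rw [e2, Matrix.mul_neg, Matrix.neg_mul]
      have hKi : K⁻¹ = !![((c : ℂ) + Complex.I)⁻¹, 0; 0, -Complex.I] := by
        apply Matrix.inv_eq_left_inv
        ext i j
        fin_cases i <;> fin_cases j <;> simp [hK, Matrix.mul_apply, Fin.sum_univ_two, hcI]
      rw [e1]
      calc toC (D * Vᵀ) * (toC (V⁻¹)ᵀ * (-K⁻¹) * toC V⁻¹) * toC (V * D)
          = toC (D * (Vᵀ * (V⁻¹)ᵀ)) * (-K⁻¹) * toC ((V⁻¹ * V) * D) := by
            simp only [toC_mul, Matrix.mul_assoc]
        _ = toC D * (-K⁻¹) * toC D := by rw [hViT, hVi, Matrix.mul_one, Matrix.one_mul]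
        _ = _ := by
            rw [hKi]
            have hsq : (s : ℂ) ^ 2 = (c : ℂ) ^ 2 + 1 := by exact_mod_cast hs
            ext i j
            fin_cases i <;> fin_cases j
            · simp [hD, toC, Matrix.mul_apply, Fin.sum_univ_two]
              field_simp
              linear_combination -hsq - Complex.I_sq
            · simp [hD, toC, Matrix.mul_apply, Fin.sum_univ_two]
            · simp [hD, toC, Matrix.mul_apply, Fin.sum_univ_two]
            · simp [hD, toC, Matrix.mul_apply, Fin.sum_univ_two]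
    show (toC (D * Vᵀ) * ti (σ x0) * toC (V * D)).map Complex.im = 1
    rw [h1]
    ext i j
    fin_cases i <;> fin_cases j <;> simp
  have hPc : ContinuousAt P x0 := by
    have h1 : ContinuousAt (fun x => ti (σ x)) x0 :=
      ContinuousAt.comp (f := σ) (ti_cont _ hσd) hσc.continuousAt
    have h2 : Continuous (fun M : M2 => (toC (D * Vᵀ) * M * toC (V * D)).map Complex.im) := by
      have : Continuous (fun M : M2 => toC (D * Vᵀ) * M * toC (V * D)) :=
        (continuous_const.matrix_mul continuous_id).matrix_mul continuous_const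
      exact this.matrix_map Complex.continuous_im
    exact ContinuousAt.comp (f := fun x => ti (σ x)) h2.continuousAt h1
  let W : M2R := (V⁻¹)ᵀ * Di
  let F : (Fin 3 → ℝ) → M2 := fun x => σ x * toC (W * cF (P x))
  have hFc : ContinuousAt F x0 := by
    have h1 : ContinuousAt (fun x => cF (P x)) x0 := by
      have hc : ContinuousAt cF (P x0) := by rw [hPx0]; exact cF_cont
      exact ContinuousAt.comp (f := P) hc hPc
    have h2 : Continuous (fun M : M2R => toC (W * M)) := by
      have : Continuous (fun M : M2R => W * M) := continuous_const.matrix_mul continuous_id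
      exact this.matrix_map Complex.continuous_ofReal
    have h3 : ContinuousAt (fun x => toC (W * cF (P x))) x0 :=
      ContinuousAt.comp (f := fun x => cF (P x)) h2.continuousAt h1
    have h4 : Continuous (fun p : M2 × M2 => p.1 * p.2) := continuous_fst.matrix_mul continuous_snd
    exact ContinuousAt.comp (f := fun x => (σ x, toC (W * cF (P x)))) h4.continuousAt
      (hσc.continuousAt.prodMk h3)
  have hF0 : F x0 = toC V * !![((c : ℂ) + Complex.I) / s, 0; 0, Complex.I] := by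
    show σ x0 * toC (W * cF (P x0)) = _
    rw [hPx0, cF_one, Matrix.mul_one, hσ0]
    calc toC V * K * toC Vᵀ * toC ((V⁻¹)ᵀ * Di)
        = toC V * (K * toC ((Vᵀ * (V⁻¹)ᵀ) * Di)) := by simp only [toC_mul, Matrix.mul_assoc]
      _ = _ := by
        rw [hViT, Matrix.one_mul]
        congr 1
        ext i j
        fin_cases i <;> fin_cases j <;>
          simp [hK, hDi, toC, Matrix.mul_apply, Fin.sum_univ_two, div_eq_mul_inv]
  -- closure
  have hcl : IsClosed (S (Lat τ) : Set Ten) := closedTen _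
  rw [← SetLike.mem_coe, ← hcl.closure_eq, mem_closure_iff_nhds]
  intro O hO
  rw [← hF0] at hO
  have hAc : ContinuousAt (fun x => act (F x) Z) x0 := by
    have h1 : Continuous (fun M : M2 => act M Z) :=
      act_cont.comp (f := fun M : M2 => (M, Z)) (continuous_id.prodMk continuous_const)
    exact ContinuousAt.comp (f := F) h1.continuousAt hFc
  have e1 : ∀ᶠ x in 𝓝 x0, act (F x) Z ∈ O := hAc.eventually_mem hO
  have hg : ∀ i j : Fin 2, Continuous (fun P : M2R => P i j) := fun i j =>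
    (continuous_apply j).comp (continuous_apply i)
  have e2 : ∀ᶠ x in 𝓝 x0, 0 < P x 0 0 := by
    have h1 : ContinuousAt (fun x => P x 0 0) x0 :=
      ContinuousAt.comp (f := P) (hg 0 0).continuousAt hPc
    have h2 : (0 : ℝ) < (P x0) 0 0 := by rw [hPx0]; simp
    exact h1.eventually_const_lt h2
  have e3 : ∀ᶠ x in 𝓝 x0, 0 < P x 0 0 * P x 1 1 - P x 0 1 * P x 0 1 := by
    have h1 : ContinuousAt (fun x => P x 0 0 * P x 1 1 - P x 0 1 * P x 0 1) x0 :=
      ContinuousAt.comp (f := P)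
        (((hg 0 0).mul (hg 1 1)).sub ((hg 0 1).mul (hg 0 1))).continuousAt hPc
    have h2 : (0 : ℝ) < (P x0) 0 0 * (P x0) 1 1 - (P x0) 0 1 * (P x0) 0 1 := by rw [hPx0]; simp
    exact h1.eventually_const_lt h2
  have e4 : ∀ᶠ x in 𝓝 x0, (σ x).det ≠ 0 := by
    have h1 : Continuous (fun x => (σ x).det) := hσc.matrix_det
    exact h1.continuousAt.eventually_ne hσd
  obtain ⟨y, ⟨f1, f2, f3, f4⟩, q, hq⟩ :=
    (mem_closure_iff_nhds.1 (dense_rat3 x0)) _ (e1.and (e2.and (e3.and e4)))
  refine ⟨act (F y) Z, f1, ?_⟩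
  -- the point `y` is rational
  have hy : Z = Z := rfl
  have hPs : P y 1 0 = P y 0 1 := by
    have h1 : (P y)ᵀ = P y := by
      show ((toC (D * Vᵀ) * ti (σ y) * toC (V * D)).map Complex.im)ᵀ = _
      rw [← Matrix.transpose_map, Matrix.transpose_mul, Matrix.transpose_mul,
        ti_symm _ (hσs y), ← toC_transpose, ← toC_transpose, Matrix.transpose_mul,
        Matrix.transpose_mul, Matrix.transpose_transpose, hDT, ← Matrix.mul_assoc]
    exact congrFun (congrFun h1 0) 1
  obtain ⟨g1, g2⟩ := cF_mul (P y) hPs f2 f3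
  have hWd : W.det ≠ 0 := by
    show ((V⁻¹)ᵀ * Di).det ≠ 0
    rw [Matrix.det_mul, Matrix.det_transpose]
    refine mul_ne_zero ?_ ?_
    · intro h
      have := congrArg Matrix.det hVi
      rw [Matrix.det_mul, h, zero_mul, Matrix.det_one] at this
      exact zero_ne_one this
    · intro h
      have := congrArg Matrix.det hDD
      rw [Matrix.det_mul, h, mul_zero, Matrix.det_one] at this
      exact zero_ne_one this
  have hWL : (W * cF (P y)).det ≠ 0 := by
    rw [Matrix.det_mul]; exact mul_ne_zero hWd g2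
  have hIm : (W * cF (P y)) * (W * cF (P y))ᵀ = (ti (σ y)).map Complex.im := by
    have h1 : (W * cF (P y)) * (W * cF (P y))ᵀ = W * P y * Wᵀ := by
      rw [Matrix.transpose_mul, ← g1]
      rw [g1]
      calc W * cF (P y) * ((cF (P y))ᵀ * Wᵀ) = W * (cF (P y) * (cF (P y))ᵀ) * Wᵀ := by
            simp only [Matrix.mul_assoc]
        _ = W * P y * Wᵀ := by rw [g1]
    rw [h1]
    show W * ((toC (D * Vᵀ) * ti (σ y) * toC (V * D)).map Complex.im) * Wᵀ = _
    rw [im_conj]
    show (V⁻¹)ᵀ * Di * (D * Vᵀ * ((ti (σ y)).map Complex.im) * (V * D)) * ((V⁻¹)ᵀ * Di)ᵀ = _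
    rw [Matrix.transpose_mul, Matrix.transpose_transpose, hDiT]
    calc (V⁻¹)ᵀ * Di * (D * Vᵀ * ((ti (σ y)).map Complex.im) * (V * D)) * (Di * V⁻¹)
        = (V⁻¹)ᵀ * (Di * D) * Vᵀ * ((ti (σ y)).map Complex.im) * V * (D * Di) * V⁻¹ := by
          simp only [Matrix.mul_assoc]
      _ = ((V⁻¹)ᵀ * Vᵀ) * ((ti (σ y)).map Complex.im) * (V * V⁻¹) := by
          rw [hDD, hDD']
          simp only [Matrix.mul_assoc, Matrix.mul_one, Matrix.one_mul]
      _ = _ := by rw [hViT', hVi', Matrix.mul_one, Matrix.one_mul]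
  have h1 : act (toC (W * cF (P y))) Z ∈ S (Lat (ti (σ y))) :=
    hZ (ti (σ y)) (ti_symm _ (hσs y)) (by rw [← hIm]; exact posDef_mul_transpose _ hWL) _ hIm
  have h2 := lat_inv hS (σ y) f4 _ h1
  rw [← act_mul] at h2
  apply lat_trans hS τ q
  have h3 : σ y = τ + toC (B3 fun i => (q i : ℝ)) := by
    show τ + toC (B3 y) = _
    rw [← hq]
  rw [← h3]
  exact h2

end Pool.Agent.H722.GRP2
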