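import Pool.Agent.H722.GRP2.A
set_option autoImplicit false

/-!
# S_GRP2: the linear algebra of step (e)
-/

open Complex Filter Topology Matrix

open scoped ComplexConjugate

namespace Pool.Agent.H722.GRP2

open Pool.Agent.H840.AS Pool.Agent.H840.KP Pool.Agent.H722.GRP

def q (A B : M2) : Ten := (s2 A B, 0)

theorem q_symm (A B : M2) : q A B = q B A := by
  refine Prod.ext ?_ rfl
  funext i j k l
  simp only [q, s2]; ring

theorem q_lin (u v : ℝ) (A A' B : M2) : q (u • A + v • A') B = u • q A B + v • q A' B := by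
  refine Prod.ext ?_ ?_
  · funext i j k l
    simp only [q, s2, Matrix.add_apply, Matrix.smul_apply, Complex.real_smul, Prod.fst_add,
      Prod.smul_fst, Pi.add_apply, Pi.smul_apply]
    ring
  · simp [q]

theorem q_lin' (u v : ℝ) (A A' B : M2) : q B (u • A + v • A') = u • q B A + v • q B A' := by
  rw [q_symm, q_lin, q_symm A, q_symm A']

theorem act_q (g A B : M2) : act g (q A B) = q (g * A * gᴴ) (g * B * gᴴ) := by
  refine Prod.ext ?_ ?_
  · rw [act_fst]
    funext i j k l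
    simp only [q, s2, P1, P2, P3, P4, Fin.sum_univ_two, Matrix.mul_apply,
      Matrix.conjTranspose_apply, Complex.star_def]
    ring
  · simp [q, act_snd]

def sg1 : M2 := !![0, 1; 1, 0]
def sg2 : M2 := !![0, -Complex.I; Complex.I, 0]
def sg3 : M2 := !![1, 0; 0, -1]

def rO (c s : ℝ) : M2R := !![c, s; -s, c]

theorem rO_orth (c s : ℝ) (h : c ^ 2 + s ^ 2 = 1) : rO c s * (rO c s)ᵀ = 1 := by
  ext i j
  fin_cases i <;> fin_cases j <;>
    simp [rO, Matrix.mul_apply, Fin.sum_univ_two] <;> linarith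

theorem rO_one (c s : ℝ) (h : c ^ 2 + s ^ 2 = 1) :
    toC (rO c s) * 1 * (toC (rO c s))ᴴ = 1 := by
  have hc : (c : ℂ) ^ 2 + (s : ℂ) ^ 2 = 1 := by exact_mod_cast h
  ext i j
  fin_cases i <;> fin_cases j <;>
    simp [rO, toC, Matrix.mul_apply, Fin.sum_univ_two, Matrix.conjTranspose_apply] <;>
    first
      | linear_combination hc
      | ring

theorem rO_sg1 (c s : ℝ) :
    toC (rO c s) * sg1 * (toC (rO c s))ᴴ = (c ^ 2 - s ^ 2) • sg1 + (2 * c * s) • sg3 := by
  ext i j
  fin_cases i <;> fin_cases j <;>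
    simp [rO, toC, sg1, sg3, Matrix.mul_apply, Fin.sum_univ_two, Matrix.conjTranspose_apply] <;>
    ring

theorem rO_sg3 (c s : ℝ) :
    toC (rO c s) * sg3 * (toC (rO c s))ᴴ = (c ^ 2 - s ^ 2) • sg3 + (-(2 * c * s)) • sg1 := by
  ext i j
  fin_cases i <;> fin_cases j <;>
    simp [rO, toC, sg1, sg3, Matrix.mul_apply, Fin.sum_univ_two, Matrix.conjTranspose_apply] <;>
    ring

theorem rO_sg2 (c s : ℝ) (h : c ^ 2 + s ^ 2 = 1) :
    toC (rO c s) * sg2 * (toC (rO c s))ᴴ = sg2 := by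
  have hc : (c : ℂ) ^ 2 + (s : ℂ) ^ 2 = 1 := by exact_mod_cast h
  ext i j
  fin_cases i <;> fin_cases j
  · simp [rO, toC, sg2, Matrix.mul_apply, Fin.sum_univ_two, Matrix.conjTranspose_apply]
    ring
  · simp [rO, toC, sg2, Matrix.mul_apply, Fin.sum_univ_two, Matrix.conjTranspose_apply]
    linear_combination -Complex.I * hc
  · simp [rO, toC, sg2, Matrix.mul_apply, Fin.sum_univ_two, Matrix.conjTranspose_apply]
    linear_combination Complex.I * hc
  · simp [rO, toC, sg2, Matrix.mul_apply, Fin.sum_univ_two, Matrix.conjTranspose_apply]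
    ring

noncomputable def kK (c s : ℝ) : M2 := !![((c : ℂ) + Complex.I) / s, 0; 0, Complex.I]

theorem kK_one (c s : ℝ) (hs : s ^ 2 = c ^ 2 + 1) (hs0 : 0 < s) : kK c s * 1 * (kK c s)ᴴ = 1 := by
  have hsc : (s : ℂ) ≠ 0 := by exact_mod_cast hs0.ne'
  have hc : (s : ℂ) ^ 2 = (c : ℂ) ^ 2 + 1 := by exact_mod_cast hs
  ext i j
  fin_cases i <;> fin_cases j
  · simp [kK, Matrix.mul_apply, Fin.sum_univ_two, Matrix.conjTranspose_apply]
    field_simp
    linear_combination -hc - Complex.I_sq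
  · simp [kK, Matrix.mul_apply, Fin.sum_univ_two, Matrix.conjTranspose_apply]
  · simp [kK, Matrix.mul_apply, Fin.sum_univ_two, Matrix.conjTranspose_apply]
  · simp [kK, Matrix.mul_apply, Fin.sum_univ_two, Matrix.conjTranspose_apply]

theorem kK_sg3 (c s : ℝ) (hs : s ^ 2 = c ^ 2 + 1) (hs0 : 0 < s) :
    kK c s * sg3 * (kK c s)ᴴ = sg3 := by
  have hsc : (s : ℂ) ≠ 0 := by exact_mod_cast hs0.ne'
  have hc : (s : ℂ) ^ 2 = (c : ℂ) ^ 2 + 1 := by exact_mod_cast hs
  ext i j
  fin_cases i <;> fin_cases j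
  · simp [kK, sg3, Matrix.mul_apply, Fin.sum_univ_two, Matrix.conjTranspose_apply]
    field_simp
    linear_combination -hc - Complex.I_sq
  · simp [kK, sg3, Matrix.mul_apply, Fin.sum_univ_two, Matrix.conjTranspose_apply]
  · simp [kK, sg3, Matrix.mul_apply, Fin.sum_univ_two, Matrix.conjTranspose_apply]
  · simp [kK, sg3, Matrix.mul_apply, Fin.sum_univ_two, Matrix.conjTranspose_apply]

theorem kK_sg1 (c s : ℝ) (hs0 : 0 < s) :
    kK c s * sg1 * (kK c s)ᴴ = (1 / s) • sg1 + (c / s) • sg2 := by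
  have hsc : (s : ℂ) ≠ 0 := by exact_mod_cast hs0.ne'
  ext i j
  fin_cases i <;> fin_cases j
  · simp [kK, sg1, sg2, Matrix.mul_apply, Fin.sum_univ_two, Matrix.conjTranspose_apply]
  · simp [kK, sg1, sg2, Matrix.mul_apply, Fin.sum_univ_two, Matrix.conjTranspose_apply]
    field_simp
    linear_combination -Complex.I_sq
  · simp [kK, sg1, sg2, Matrix.mul_apply, Fin.sum_univ_two, Matrix.conjTranspose_apply]
    field_simp
    linear_combination -Complex.I_sq
  · simp [kK, sg1, sg2, Matrix.mul_apply, Fin.sum_univ_two, Matrix.conjTranspose_apply]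

theorem kK_sg2 (c s : ℝ) (hs0 : 0 < s) :
    kK c s * sg2 * (kK c s)ᴴ = (1 / s) • sg2 + (-(c / s)) • sg1 := by
  have hsc : (s : ℂ) ≠ 0 := by exact_mod_cast hs0.ne'
  ext i j
  fin_cases i <;> fin_cases j
  · simp [kK, sg1, sg2, Matrix.mul_apply, Fin.sum_univ_two, Matrix.conjTranspose_apply]
  · simp [kK, sg1, sg2, Matrix.mul_apply, Fin.sum_univ_two, Matrix.conjTranspose_apply]
    field_simp
    linear_combination (c + Complex.I) * Complex.I_sq
  · simp [kK, sg1, sg2, Matrix.mul_apply, Fin.sum_univ_two, Matrix.conjTranspose_apply]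
    field_simp
    ring
  · simp [kK, sg1, sg2, Matrix.mul_apply, Fin.sum_univ_two, Matrix.conjTranspose_apply]

end Pool.Agent.H722.GRP2
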