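import Pool.Agent.H722.GRP2.C
set_option autoImplicit false

/-!
# S_GRP2: the linear algebra of step (e)
-/

open Complex Filter Topology Matrix

open scoped ComplexConjugate

namespace Pool.Agent.H722.GRP2

open Pool.Agent.H840.AS Pool.Agent.H840.KP Pool.Agent.H722.GRP

theorem memx (N : Submodule ℝ Ten) {x y z : Ten} {b : ℝ} (hb : b ≠ 0) (hx : x ∈ N) (h : z ∈ N)
    (e : z = x + b • y) : y ∈ N := by
  have h1 := N.sub_mem h hx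
  rw [e, add_sub_cancel_left] at h1
  exact (N.smul_mem_iff hb).1 h1

theorem q_sq (u v : ℝ) (A B : M2) : q (u • A + v • B) (u • A + v • B) =
    (u ^ 2) • q A A + (2 * u * v) • q A B + (v ^ 2) • q B B := by
  rw [q_lin, q_lin', q_lin', q_symm B A]
  module

theorem algN (N : Submodule ℝ Ten)
    (hO : ∀ c s : ℝ, c ^ 2 + s ^ 2 = 1 → ∀ Z ∈ N, act (toC (rO c s)) Z ∈ N)
    (hK : ∀ c s : ℝ, s ^ 2 = c ^ 2 + 1 → 0 < s → ∀ Z ∈ N, act (kK c s) Z ∈ N)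
    (x0 x3 α β γ : ℝ) (hαβ : α ≠ β) (hαβγ : α + β + γ ≠ 0)
    (h11 : q 1 1 ∈ N) (h1 : q sg1 1 ∈ N)
    (hX : x0 • q 1 1 + x3 • q sg3 1 + α • q sg1 sg1 + β • q sg2 sg2 + γ • q sg3 sg3 ∈ N) :
    q sg3 1 ∈ N ∧ q sg2 1 ∈ N ∧ q sg1 sg2 ∈ N ∧ q sg2 sg3 ∈ N ∧ q sg1 sg3 ∈ N ∧ q sg1 sg1 ∈ N ∧
      q sg2 sg2 ∈ N ∧ q sg3 sg3 ∈ N := by
  have hc1 : ((4 / 5 : ℝ)) ^ 2 + (3 / 5) ^ 2 = 1 := by norm_num
  have hk1 : ((5 / 4 : ℝ)) ^ 2 = (3 / 4) ^ 2 + 1 := by norm_num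
  have hk1' : ((5 / 4 : ℝ)) ^ 2 = (-(3 / 4)) ^ 2 + 1 := by norm_num
  have hk2 : (0 : ℝ) < 5 / 4 := by norm_num
  -- the linear ones
  have h3 : q sg3 1 ∈ N := by
    have h := hO _ _ hc1 _ h1
    rw [act_q, rO_sg1, rO_one _ _ hc1, q_lin] at h
    exact memx N (x := ((4 / 5 : ℝ) ^ 2 - (3 / 5) ^ 2) • q sg1 1) (b := 2 * (4 / 5) * (3 / 5))
      (by norm_num) (N.smul_mem _ h1) h rfl
  have h2 : q sg2 1 ∈ N := by
    have h := hK _ _ hk1 hk2 _ h1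
    rw [act_q, kK_sg1 _ _ hk2, kK_one _ _ hk1 hk2, q_lin] at h
    exact memx N (x := (1 / (5 / 4) : ℝ) • q sg1 1) (b := (3 / 4) / (5 / 4))
      (by norm_num) (N.smul_mem _ h1) h rfl
  have hY : α • q sg1 sg1 + β • q sg2 sg2 + γ • q sg3 sg3 ∈ N := by
    have h := N.sub_mem hX (N.add_mem (N.smul_mem x0 h11) (N.smul_mem x3 h3))
    have e : x0 • q 1 1 + x3 • q sg3 1 + α • q sg1 sg1 + β • q sg2 sg2 + γ • q sg3 sg3 -
      (x0 • q 1 1 + x3 • q sg3 1) = α • q sg1 sg1 + β • q sg2 sg2 + γ • q sg3 sg3 := by abel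
    rwa [e] at h
  have hK11 : ∀ c s : ℝ, s ^ 2 = c ^ 2 + 1 → 0 < s → act (kK c s) (q sg1 sg1) =
      ((1 / s) ^ 2) • q sg1 sg1 + (2 * (1 / s) * (c / s)) • q sg1 sg2 +
        ((c / s) ^ 2) • q sg2 sg2 := by
    intro c s _ h0
    rw [act_q, kK_sg1 _ _ h0, q_sq]
  have hK22 : ∀ c s : ℝ, s ^ 2 = c ^ 2 + 1 → 0 < s → act (kK c s) (q sg2 sg2) =
      ((1 / s) ^ 2) • q sg2 sg2 + (2 * (1 / s) * (-(c / s))) • q sg1 sg2 +
        ((-(c / s)) ^ 2) • q sg1 sg1 := by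
    intro c s _ h0
    rw [act_q, kK_sg2 _ _ h0, q_sq, q_symm sg2 sg1]
  have hK33 : ∀ c s : ℝ, s ^ 2 = c ^ 2 + 1 → 0 < s → act (kK c s) (q sg3 sg3) =
      q sg3 sg3 := by
    intro c s h h0
    rw [act_q, kK_sg3 _ _ h h0]
  have hd : α - β ≠ 0 := sub_ne_zero.2 hαβ
  -- the two rotations
  have hp := hK _ _ hk1 hk2 _ hY
  rw [act_add, act_add, act_rsmul, act_rsmul, act_rsmul, hK11 _ _ hk1 hk2, hK22 _ _ hk1 hk2,
    hK33 _ _ hk1 hk2] at hp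
  have hm := hK _ _ hk1' hk2 _ hY
  rw [act_add, act_add, act_rsmul, act_rsmul, act_rsmul, hK11 _ _ hk1' hk2, hK22 _ _ hk1' hk2,
    hK33 _ _ hk1' hk2] at hm
  have h12 : q sg1 sg2 ∈ N := by
    have h := N.sub_mem hp hm
    refine memx N (x := 0) (b := (4 * (4 / 5) * (3 / 5)) * (α - β))
      (mul_ne_zero (by norm_num) hd) N.zero_mem h ?_
    module
  have hA : q sg1 sg1 - q sg2 sg2 ∈ N := by
    have h := N.sub_mem hY hp
    refine memx N (x := (-(2 * (4 / 5) * (3 / 5)) * (α - β)) • q sg1 sg2)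
      (b := (3 / 5) ^ 2 * (α - β)) (mul_ne_zero (by norm_num) hd) (N.smul_mem _ h12) h ?_
    module
  have h23 : q sg2 sg3 ∈ N := by
    have h := hO _ _ hc1 _ h12
    rw [act_q, rO_sg1, rO_sg2 _ _ hc1, q_lin, q_symm sg3 sg2] at h
    exact memx N (x := ((4 / 5 : ℝ) ^ 2 - (3 / 5) ^ 2) • q sg1 sg2) (b := 2 * (4 / 5) * (3 / 5))
      (by norm_num) (N.smul_mem _ h12) h rfl
  have h13 : q sg1 sg3 ∈ N := by
    have h := hK _ _ hk1 hk2 _ h23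
    rw [act_q, kK_sg2 _ _ hk2, kK_sg3 _ _ hk1 hk2, q_lin] at h
    exact memx N (x := (1 / (5 / 4) : ℝ) • q sg2 sg3) (b := -((3 / 4) / (5 / 4)))
      (by norm_num) (N.smul_mem _ h23) h rfl
  have hB : q sg3 sg3 - q sg1 sg1 ∈ N := by
    have h := hO _ _ hc1 _ hA
    rw [sub_eq_add_neg, ← neg_one_smul ℝ (q sg2 sg2), act_add, act_rsmul, act_q, act_q, rO_sg1,
      rO_sg2 _ _ hc1, q_sq] at h
    refine memx N (x := (2 * ((4 / 5 : ℝ) ^ 2 - (3 / 5) ^ 2) * (2 * (4 / 5) * (3 / 5))) • q sg1 sg3 +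
      (q sg1 sg1 - q sg2 sg2)) (b := (2 * (4 / 5) * (3 / 5)) ^ 2)
      (by norm_num) (N.add_mem (N.smul_mem _ h13) hA) h ?_
    module
  have hq11 : q sg1 sg1 ∈ N := by
    refine memx N (x := (-β) • (q sg1 sg1 - q sg2 sg2) + γ • (q sg3 sg3 - q sg1 sg1))
      (b := α + β + γ) hαβγ (N.add_mem (N.smul_mem _ hA) (N.smul_mem _ hB)) hY ?_
    module
  have hq22 : q sg2 sg2 ∈ N := by
    have h := N.sub_mem hq11 hA
    rwa [sub_sub_cancel] at h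
  have hq33 : q sg3 sg3 ∈ N := by
    have h := N.add_mem hB hq11
    rwa [sub_add_cancel] at h
  exact ⟨h3, h2, h12, h23, h13, hq11, hq22, hq33⟩

theorem ee_form : ((fun i j k l => 2 * (ee i k * ee j l), 1) : Ten) =
    (1 / 2 : ℝ) • (q 1 1 - q sg1 sg1 - q sg2 sg2 - q sg3 sg3) + ((0, 1) : Ten) := by
  refine Prod.ext ?_ ?_
  · funext i j k l
    fin_cases i <;> fin_cases j <;> fin_cases k <;> fin_cases l <;>
      simp [q, s2, ee, sg1, sg2, sg3] <;> norm_num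
  · simp [q]

theorem full (N : Submodule ℝ Ten) (h00 : q 1 1 ∈ N) (h01 : q sg1 1 ∈ N) (h02 : q sg2 1 ∈ N)
    (h03 : q sg3 1 ∈ N) (h11 : q sg1 sg1 ∈ N) (h12 : q sg1 sg2 ∈ N) (h13 : q sg1 sg3 ∈ N)
    (h22 : q sg2 sg2 ∈ N) (h23 : q sg2 sg3 ∈ N) (h33 : q sg3 sg3 ∈ N)
    (hE : ((fun i j k l => 2 * (ee i k * ee j l), 1) : Ten) ∈ N) (Z : Ten) (hZ : Z ∈ TenH) :
    Z ∈ N := by
  have hE' : ((0, 1) : Ten) ∈ N := by
    rw [ee_form] at hE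
    have h := N.sub_mem hE (N.smul_mem (1 / 2 : ℝ)
      (N.sub_mem (N.sub_mem (N.sub_mem h00 h11) h22) h33))
    rwa [add_sub_cancel_left] at h
  obtain ⟨hs, hc⟩ := hZ
  have e : Z = (((Z.1 0 0 0 0).re + (Z.1 1 1 1 1).re) / 8 + (Z.1 0 0 1 1).re / 4) • q 1 1 +
      (((Z.1 0 0 0 1).re + (Z.1 1 1 0 1).re) / 2) • q sg1 1 +
      (-((Z.1 0 0 0 1).im + (Z.1 1 1 0 1).im) / 2) • q sg2 1 +
      (((Z.1 0 0 0 0).re - (Z.1 1 1 1 1).re) / 4) • q sg3 1 +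
      (((Z.1 0 1 0 1).re + (Z.1 0 1 1 0).re) / 4) • q sg1 sg1 +
      (-(Z.1 0 1 0 1).im / 2) • q sg1 sg2 +
      (((Z.1 0 0 0 1).re - (Z.1 1 1 0 1).re) / 2) • q sg1 sg3 +
      (((Z.1 0 1 1 0).re - (Z.1 0 1 0 1).re) / 4) • q sg2 sg2 +
      (-((Z.1 0 0 0 1).im - (Z.1 1 1 0 1).im) / 2) • q sg2 sg3 +
      (((Z.1 0 0 0 0).re + (Z.1 1 1 1 1).re) / 8 - (Z.1 0 0 1 1).re / 4) • q sg3 sg3 +
      Z.2 • ((0, 1) : Ten) := by
    have c0000 := congrArg Complex.im (hc 0 0 0 0)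
    have c1111 := congrArg Complex.im (hc 1 1 1 1)
    have c0011 := congrArg Complex.im (hc 0 0 1 1)
    have c0110 := hc 0 1 1 0
    have s1 := hs 0 0 1 1
    have s2' := hs 0 1 0 0
    have s3 := hs 1 0 0 0
    have s4 := hs 0 1 1 1
    have s5 := hs 1 0 1 1
    have s6 := hs 1 0 0 1
    have d1 := hc 0 0 0 1
    have d2 := hc 1 1 0 1
    have d3 := hc 0 1 0 1
    rw [s6] at c0110
    have c0110' := congrArg Complex.im c0110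
    simp only [Complex.conj_im] at c0000 c1111 c0011 c0110'
    refine Prod.ext ?_ ?_
    · funext i j k l
      fin_cases i <;> fin_cases j <;> fin_cases k <;> fin_cases l <;>
        simp only [Fin.zero_eta, Fin.mk_one, s2', s3, s4, s5, s6, ← s1, ← d1, ← d2, ← d3] <;>
        apply Complex.ext <;>
        simp [q, s2, sg1, sg2, sg3] <;>
        linarith
    · simp [q]
  rw [e]
  exact N.add_mem (N.add_mem (N.add_mem (N.add_mem (N.add_mem (N.add_mem (N.add_mem (N.add_mem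
    (N.add_mem (N.add_mem (N.smul_mem _ h00) (N.smul_mem _ h01)) (N.smul_mem _ h02))
    (N.smul_mem _ h03)) (N.smul_mem _ h11)) (N.smul_mem _ h12)) (N.smul_mem _ h13))
    (N.smul_mem _ h22)) (N.smul_mem _ h23)) (N.smul_mem _ h33)) (N.smul_mem _ hE')

end Pool.Agent.H722.GRP2
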