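import Pool.Agent.H722.GRP2.B
import Pool.Agent.H722.GRP2.D
set_option autoImplicit false

/-!
# S_GRP2
-/

open Complex Filter Topology Matrix

open scoped ComplexConjugate

namespace Pool.Agent.H722.GRP2

open Pool.Agent.H840.AS Pool.Agent.H840.KP Pool.Agent.H722.GRP

/-- the submodule of step (c) -/
def Nsub (S : AddSubgroup (Fin 2 → ℂ) → Submodule ℝ Ten) : Submodule ℝ Ten where
  carrier := {Z | InN S Z}
  zero_mem' := fun τ _ _ V _ => by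
    have h : act (toC V) 0 = 0 := (actL (toC V)).map_zero
    rw [h]
    exact (S (Lat τ)).zero_mem
  add_mem' := fun {a b} ha hb τ h1 h2 V h3 => by
    rw [act_add]
    exact (S (Lat τ)).add_mem (ha τ h1 h2 V h3) (hb τ h1 h2 V h3)
  smul_mem' := fun c {x} hx τ h1 h2 V h3 => by
    rw [act_rsmul]
    exact (S (Lat τ)).smul_mem _ (hx τ h1 h2 V h3)

theorem Nsub_O {S : AddSubgroup (Fin 2 → ℂ) → Submodule ℝ Ten} (c s : ℝ) (h : c ^ 2 + s ^ 2 = 1)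
    (Z : Ten) (hZ : Z ∈ Nsub S) : act (toC (rO c s)) Z ∈ Nsub S := by
  intro τ h1 h2 V h3
  rw [← act_mul, ← toC_mul]
  refine hZ τ h1 h2 (V * rO c s) ?_
  rw [Matrix.transpose_mul]
  calc V * rO c s * ((rO c s)ᵀ * Vᵀ) = V * (rO c s * (rO c s)ᵀ) * Vᵀ := by
        simp only [Matrix.mul_assoc]
    _ = V * Vᵀ := by rw [rO_orth c s h, Matrix.mul_one]
    _ = _ := h3

theorem Nsub_K {S : AddSubgroup (Fin 2 → ℂ) → Submodule ℝ Ten} (hS : Funct2 S) (c s : ℝ)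
    (h : s ^ 2 = c ^ 2 + 1) (h0 : 0 < s) (Z : Ten) (hZ : Z ∈ Nsub S) :
    act (kK c s) Z ∈ Nsub S := by
  intro τ h1 h2 V h3
  rw [← act_mul]
  exact kstep hS c s h h0 Z hZ τ h1 h2 V h3

theorem act_TenH (g : M2) (Z : Ten) (hZ : Z ∈ TenH) : act g Z ∈ TenH := by
  obtain ⟨hs, hc⟩ := hZ
  refine ⟨fun i j k l => ?_, fun i j k l => ?_⟩
  · rw [act_fst]
    simp only [P1, P2, P3, P4, Fin.sum_univ_two]
    rw [hs 1 0 0 0, hs 0 1 0 0, hs 1 1 0 0, hs 1 0 0 1, hs 1 1 0 1, hs 1 1 1 0]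
    ring
  · rw [act_fst]
    simp only [P1, P2, P3, P4, Fin.sum_univ_two, map_add, map_mul, Complex.conj_conj, hc]
    ring

theorem s_GRP2 : Pool.Agent.H840.KP.S_GRP2 := by
  intro S hS T X hT hX1 hX2 hX3 hX4 hX5 hyp
  have hV : ∀ Z₀ ∈ ({(s2 1 1, 0), (s2 !![0, 1; 1, 0] 1, 0), (fun i j k l => (X i j k l : ℂ), 0),
        (fun i j k l => 2 * (ee i k * ee j l), 1)} : Set Ten), Z₀ ∈ Nsub S := by
    intro Z₀ hZ₀ τ h1 h2 V h3
    have hVd : V.det ≠ 0 := by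
      intro h0
      have h4 := h2.det_pos
      rw [← h3, Matrix.det_mul, h0, zero_mul] at h4
      exact lt_irrefl _ h4
    exact lemV hS T hT Z₀ (hyp Z₀ hZ₀) τ h1 V h3 hVd
  have h00 : q 1 1 ∈ Nsub S := hV _ (by left; rfl)
  have h01 : q sg1 1 ∈ Nsub S := hV _ (by right; left; rfl)
  have hXm : ((fun i j k l => (X i j k l : ℂ), 0) : Ten) ∈ Nsub S := hV _ (by
    right; right; left; rfl)
  have hE : ((fun i j k l => 2 * (ee i k * ee j l), 1) : Ten) ∈ Nsub S := hV _ (by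
    right; right; right; rfl)
  have z1 := hX3 0 0 0 1 (by decide)
  have z2 := hX3 0 0 1 0 (by decide)
  have z3 := hX3 0 1 0 0 (by decide)
  have z4 := hX3 1 0 0 0 (by decide)
  have z5 := hX3 1 1 1 0 (by decide)
  have z6 := hX3 1 1 0 1 (by decide)
  have z7 := hX3 1 0 1 1 (by decide)
  have z8 := hX3 0 1 1 1 (by decide)
  have w1 : X 1 1 0 0 = X 0 0 1 1 := hX1 1 1 0 0
  have w2 : X 0 1 0 1 = X 1 0 1 0 := hX2 0 1 0 1
  have w3 : X 1 0 0 1 = X 0 1 1 0 := hX1 1 0 0 1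
  have eX : ((fun i j k l => (X i j k l : ℂ), 0) : Ten) =
      ((X 0 0 0 0 + X 1 1 1 1) / 8 + X 0 0 1 1 / 4) • q 1 1 +
      ((X 0 0 0 0 - X 1 1 1 1) / 4) • q sg3 1 +
      ((X 1 0 1 0 + X 0 1 1 0) / 4) • q sg1 sg1 + ((X 0 1 1 0 - X 1 0 1 0) / 4) • q sg2 sg2 +
      ((X 0 0 0 0 + X 1 1 1 1) / 8 - X 0 0 1 1 / 4) • q sg3 sg3 := by
    refine Prod.ext ?_ ?_
    · funext i j k l
      fin_cases i <;> fin_cases j <;> fin_cases k <;> fin_cases l <;>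
        simp only [Fin.zero_eta, Fin.mk_one, z1, z2, z3, z4, z5, z6, z7, z8, w1, w2, w3] <;>
        apply Complex.ext <;>
        simp [q, s2, sg1, sg2, sg3] <;>
        linarith
    · simp [q]
  rw [eX] at hXm
  obtain ⟨a1, a2, a3, a4, a5, a6, a7, a8⟩ := algN (Nsub S) (fun c s h Z hZ => Nsub_O c s h Z hZ)
    (fun c s h h0 Z hZ => Nsub_K hS c s h h0 Z hZ) _ _ _ _ _ (by
      intro h
      apply hX4
      linarith) (by
      intro h
      apply hX5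
      linarith) h00 h01 hXm
  intro τ hτ hτp Z hZ
  obtain ⟨V, hVV, hVd⟩ := chol _ hτp
  have h5 : act (toC V⁻¹) Z ∈ Nsub S :=
    full (Nsub S) h00 h01 a2 a1 a6 a3 a5 a7 a4 a8 hE _ (act_TenH _ _ hZ)
  have h6 := h5 τ hτ hτp V hVV
  rw [← act_mul, ← toC_mul, Matrix.mul_nonsing_inv V hVd.ne'.isUnit] at h6
  have h7 : toC (1 : M2R) = 1 := by
    ext i j; fin_cases i <;> fin_cases j <;> simp [toC]
  rwa [h7, act_one] at h6

end Pool.Agent.H722.GRP2
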